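import Mathlib
import Pool.Agent.R506.ProdInt

/-!
# Every set of positive integers containing 1 is a product intersection set of a decreasing sequence

Every set `X` of positive integers with `1 ∈ X` is `H(A_q)` for an asymptotically strictly decreasing
sequence `(A_q)` of subsets of some (even commutative) semigroup. See `Pool/Agent/R506/ProdInt.lean`.
-/

set_option autoImplicit false

universe u

namespace Pool.Agent.Results.MP_078e15_co.AllSets

/-- `prodSet A h` is the set `A^h` of all products `a_1 a_2 ⋯ a_h` with all `a_i ∈ A`, for `h ≥ 1`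
(the value at `h = 0` is not used). -/
def prodSet {S : Type u} [Semigroup S] (A : Set S) : ℕ → Set S
  | 0 => ∅
  | 1 => A
  | n + 2 => {x | ∃ y ∈ prodSet A (n + 1), ∃ a ∈ A, x = y * a}

/-- The set `H(A_q) = {h ≥ 1 : A^h = ⋂_q A_q^h}`, where `A = ⋂_q A_q`. -/
def interSet {S : Type u} [Semigroup S] (A : ℕ → Set S) : Set ℕ+ :=
  {h | prodSet (⋂ q, A q) h = ⋂ q, prodSet (A q) h}

/-- The sequence is asymptotically strictly decreasing: it is decreasing and `A_q ≠ A_{q+1}` for
infinitely many `q`. -/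
def AsympStrictlyDecreasing {S : Type u} (A : ℕ → Set S) : Prop :=
  (∀ q, A (q + 1) ⊆ A q) ∧ ∀ N, ∃ q, N ≤ q ∧ A q ≠ A (q + 1)

/-- The collection `H*_N(S)` of the sets `H(A_q)`, where `(A_q)` ranges over the asymptotically strictly
decreasing sequences of subsets of `S`. -/
def HstarN (S : Type u) [Semigroup S] : Set (Set ℕ+) :=
  {X | ∃ A : ℕ → Set S, AsympStrictlyDecreasing A ∧ X = interSet A}

lemma prodSet_eq {S : Type u} [Semigroup S] (A : Set S) (n : ℕ) :
    prodSet A n = Pool.Agent.R506.ProdInt.prodSet A n := by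
  match n with
  | 0 => rfl
  | 1 => rfl
  | n + 2 =>
    unfold prodSet Pool.Agent.R506.ProdInt.prodSet
    rw [prodSet_eq A (n + 1)]

theorem result : ¬ ∃ X : Set ℕ+, 1 ∈ X ∧
    ∀ (S : Type u) (_ : Semigroup S), X ∉ HstarN S := by
  rintro ⟨X, h1, hX⟩
  set Y : Set ℕ := {n | ∃ h : ℕ+, h ∈ X ∧ (h : ℕ) = n} with hY
  have h1Y : 1 ∈ Y := ⟨1, h1, rfl⟩
  set A : ℕ → Set Pool.Agent.R506.ProdInt.El.{u} := Pool.Agent.R506.ProdInt.As Y with hA
  apply hX Pool.Agent.R506.ProdInt.El.{u} inferInstance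
  refine ⟨A, ⟨fun q => Pool.Agent.R506.ProdInt.antitone_As Y (Nat.le_succ q), fun N =>
    ⟨N, le_rfl, (Pool.Agent.R506.ProdInt.As_ne Y N).symm⟩⟩, ?_⟩
  ext h
  have key := Pool.Agent.R506.ProdInt.eq_iff.{u} Y h1Y h h.2
  show h ∈ X ↔ prodSet (⋂ q, A q) h = ⋂ q, prodSet (A q) h
  simp only [prodSet_eq]
  rw [key]
  constructor
  · intro hX
    exact ⟨h, hX, rfl⟩
  · rintro ⟨h', hX, he⟩
    rw [← PNat.coe_injective he]
    exact hX

end Pool.Agent.Results.MP_078e15_co.AllSets
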